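import Pool.Agent.Lib.PolyTM.GenComp

/-!
# Generators are computable in polynomial time

`gen_polyTime`: the function that maps an input string `x` to the string written by a generator
with `N = (|x| + a)^a` is computable in polynomial time by a `TM2` machine.
-/

open Turing StateTransition

set_option linter.unnecessarySeqFocus false
set_option linter.unreachableTactic false
set_option linter.unusedTactic false
set_option linter.unusedSectionVars false

namespace Pool.Agent.Lib.PolyTM

/-! ### Polynomially bounded functions -/

/-- Polynomially bounded functions. -/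
def PolyBdd (f : ℕ → ℕ) : Prop := ∃ p : Polynomial ℕ, ∀ n, f n ≤ p.eval n

theorem PolyBdd.mono {f g : ℕ → ℕ} (hg : PolyBdd g) (h : ∀ n, f n ≤ g n) : PolyBdd f := by
  obtain ⟨p, hp⟩ := hg
  exact ⟨p, fun n => (h n).trans (hp n)⟩

theorem PolyBdd.const (c : ℕ) : PolyBdd fun _ => c := ⟨Polynomial.C c, fun n => by simp⟩

theorem PolyBdd.id : PolyBdd fun n => n := ⟨Polynomial.X, fun n => by simp⟩

theorem PolyBdd.add {f g : ℕ → ℕ} (hf : PolyBdd f) (hg : PolyBdd g) :
    PolyBdd fun n => f n + g n := by
  obtain ⟨p, hp⟩ := hf
  obtain ⟨q, hq⟩ := hg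
  exact ⟨p + q, fun n => by rw [Polynomial.eval_add]; exact Nat.add_le_add (hp n) (hq n)⟩

theorem PolyBdd.mul {f g : ℕ → ℕ} (hf : PolyBdd f) (hg : PolyBdd g) :
    PolyBdd fun n => f n * g n := by
  obtain ⟨p, hp⟩ := hf
  obtain ⟨q, hq⟩ := hg
  exact ⟨p * q, fun n => by rw [Polynomial.eval_mul]; exact Nat.mul_le_mul (hp n) (hq n)⟩

theorem PolyBdd.pow {f : ℕ → ℕ} (hf : PolyBdd f) (k : ℕ) : PolyBdd fun n => f n ^ k := by
  induction k with
  | zero => simp only [pow_zero]; exact PolyBdd.const 1
  | succ k ih => simp only [pow_succ]; exact ih.mul hf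

theorem eval_mono (p : Polynomial ℕ) : Monotone fun n : ℕ => p.eval n := by
  intro a b h
  simp only
  rw [Polynomial.eval_eq_sum, Polynomial.eval_eq_sum]
  exact Finset.sum_le_sum fun i _ => Nat.mul_le_mul_left _ (Nat.pow_le_pow_left h i)

theorem PolyBdd.comp {f g : ℕ → ℕ} (hf : PolyBdd f) (hg : PolyBdd g) :
    PolyBdd fun n => f (g n) := by
  obtain ⟨p, hp⟩ := hf
  obtain ⟨q, hq⟩ := hg
  refine ⟨p.comp q, fun n => ?_⟩
  rw [Polynomial.eval_comp]
  exact (hp _).trans (eval_mono p (hq n))

variable {A T V : Type} [DecidableEq V]

theorem Gen.cost_polyBdd (g : Gen A T V) : PolyBdd fun N => g.cost N := by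
  induction g with
  | out w => exact PolyBdd.const _
  | rep v w =>
    exact ((PolyBdd.id.mul (.const _)).add (.const _)).add ((PolyBdd.id.mul (.const _)).add
      (.const _))
  | seq g₁ g₂ ih₁ ih₂ => exact ih₁.add ih₂
  | loop v g ih =>
    exact ((PolyBdd.id.mul (.const _)).add (.const _)).add
      (((PolyBdd.id.mul (.const _)).add (.const _)).add
        (((PolyBdd.id.mul (ih.add (.const _))).add (.const _)).add
          ((PolyBdd.id.mul (.const _)).add (.const _))))
  | ite c g₁ g₂ ih₁ ih₂ =>
    exact (((PolyBdd.id.add (.const _)).mul (.const _)).add (.const _)).add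
      ((ih₁.add ih₂).add (.const _))

theorem Gen.length_eval_le (g : Gen A T V) (N : ℕ) (x : List A) (env : V → ℕ)
    (h : ∀ v, env v ≤ N) : (g.eval N x env).length ≤ g.cost N := by
  induction g generalizing env with
  | out w => simp [eval, cost]
  | rep v w =>
    have h1 : (List.replicate (env v) w).flatten.length = env v * w.length := by
      simp
    simp only [eval, cost, h1]
    have := Nat.mul_le_mul_right w.length (h v)
    nlinarith
  | seq g₁ g₂ ih₁ ih₂ =>
    simp only [eval, cost, List.length_append]
    exact Nat.add_le_add (ih₁ env h) (ih₂ env h)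
  | loop v g ih =>
    simp only [eval, cost, List.length_flatMap]
    have h1 : ((List.range N).map fun i => (g.eval N x (Function.update env v i)).length).sum ≤
        ((List.range N).map fun i => (g.eval N x (Function.update env v i)).length).length •
          g.cost N := by
      refine List.sum_le_card_nsmul _ _ ?_
      intro y hy
      obtain ⟨i, hi, rfl⟩ := List.mem_map.1 hy
      refine ih _ fun u => ?_
      simp only [Function.update_apply]
      split_ifs
      · exact (List.mem_range.1 hi).le
      · exact h u
    rw [List.length_map, List.length_range, smul_eq_mul] at h1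
    refine h1.trans ?_
    nlinarith
  | ite c g₁ g₂ ih₁ ih₂ =>
    have h1 := ih₁ env h
    have h2 := ih₂ env h
    simp only [eval, cost]
    cases Test.eval N x env c
    · simp only [cond_false]; omega
    · simp only [cond_true]; omega

/-! ### The main program -/

/-- Read the input and count its length in `t1`. -/
def readInp : Prog A T (Reg V) :=
  .seq (whileT tInp (.seq mvInp (inc .t1))) (whileT tXt mvXt)

theorem does_readInp (x : List A) :
    Does (readInp : Prog A T (Reg V)) ⟨x, [], [], [], [], fun _ => 0⟩ (x.length * 9 + 4)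
      ⟨[], x.map some, [], [], [], Function.update (fun _ => 0) .t1 x.length⟩ := by
  have hy : (x.map some).length = x.length := List.length_map _
  have a1 : Does (whileT tInp (.seq mvInp (inc .t1)) : Prog A T (Reg V))
      ⟨x, [], [], [], [], fun _ => 0⟩ (x.length * 5 + 2)
      ⟨[], [], (x.map some).reverse, [], [], Function.update (fun _ => 0) .t1 x.length⟩ := by
    refine does_while tests_tInp (fun i => ⟨x.drop (x.length - i), [],
      ((x.map some).take (x.length - i)).reverse, [], [],
      Function.update (fun _ => 0) .t1 (x.length - i)⟩) x.length 3 ?_ ?_ (by simp) ?_ ?_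
      (by omega)
    · refine Mem.ext ?_ rfl ?_ rfl rfl ?_ <;> simp
    · refine Mem.ext ?_ rfl ?_ rfl rfl ?_ <;> simp
    · intro i hi
      simp only
      cases hd : x.drop (x.length - (i + 1)) with
      | nil =>
        rw [List.drop_eq_nil_iff] at hd
        omega
      | cons _ _ => rfl
    · intro i hi
      have hlt : x.length - (i + 1) < x.length := by omega
      have hlt' : x.length - (i + 1) < (x.map some).length := by omega
      have hsub : x.length - i = x.length - (i + 1) + 1 := by omega
      refine Does.fin ((does_mvInp _ (x[x.length - (i + 1)]) (x.drop (x.length - i)) ?_).seq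
        (does_inc Reg.t1 _)) (by omega) ?_
      · simp only
        rw [List.drop_eq_getElem_cons hlt, ← hsub]
      · refine Mem.ext rfl rfl ?_ rfl rfl ?_
        · simp only
          rw [hsub, List.take_succ_eq_append_getElem hlt', List.reverse_append, List.getElem_map]
          rfl
        · funext y
          simp only [Function.update_apply]
          split_ifs <;> omega
  have a2 : Does (whileT tXt mvXt : Prog A T (Reg V))
      ⟨[], [], (x.map some).reverse, [], [], Function.update (fun _ => 0) .t1 x.length⟩
      (x.length * 4 + 2)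
      ⟨[], x.map some, [], [], [], Function.update (fun _ => 0) .t1 x.length⟩ := by
    refine does_while tests_tXt (fun i => ⟨[], (x.map some).drop i,
      ((x.map some).take i).reverse, [], [],
      Function.update (fun _ => 0) .t1 x.length⟩) x.length 2 ?_ ?_ (by simp) ?_ ?_
      (by omega)
    · refine Mem.ext rfl ?_ ?_ rfl rfl rfl
      · simp only
        rw [List.drop_eq_nil_iff.2 hy.le]
      · simp only
        rw [List.take_of_length_le hy.le]
    · refine Mem.ext rfl ?_ ?_ rfl rfl ?_ <;> simp
    · intro i hi
      rw [← hy] at hi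
      simp only
      rw [List.take_succ_eq_append_getElem hi, List.reverse_append]
      rfl
    · intro i hi
      rw [← hy] at hi
      refine Does.fin (does_mvXt _ ((x.map some)[i]) (((x.map some).take i).reverse) ?_)
        (by omega) ?_
      · simp only
        rw [List.take_succ_eq_append_getElem hi, List.reverse_append]
        rfl
      · refine Mem.ext rfl ?_ rfl rfl rfl rfl
        simp only
        rw [List.drop_eq_getElem_cons hi]
  exact Does.fin (a1.seq a2) (by omega) rfl

/-- Add `k` to a counter. -/
def incN {R : Type} [DecidableEq R] (r : R) : ℕ → Prog A T R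
  | 0 => skip
  | k + 1 => .seq (inc r) (incN r k)

theorem does_incN {R : Type} [DecidableEq R] (r : R) (k : ℕ) (m : Mem A T R) :
    Does (incN r k) m (k + 1) { m with r := (Function.update m.r r (m.r r + k)) } := by
  induction k generalizing m with
  | zero => exact (does_skip m).congr (by simp)
  | succ k ih =>
    refine Does.fin ((does_inc r m).seq (ih _)) (by omega) ?_
    refine Mem.ext rfl rfl rfl rfl rfl ?_
    funext y
    simp only [Function.update_apply]
    split_ifs
    · omega
    · rfl

/-- Set a counter to zero. -/
def clear {R : Type} [DecidableEq R] (r : R) : Prog A T R := whileT (tReg r) (dec r)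

theorem does_clear {R : Type} [DecidableEq R] (r : R) (m : Mem A T R) :
    Does (clear r) m (m.r r * 3 + 2) { m with r := (Function.update m.r r 0) } := by
  refine does_while (tests_tReg r) (fun i => { m with r := (Function.update m.r r i) }) (m.r r) 1
    ?_ rfl (by simp) (by intro i _; simp) ?_ (by omega)
  · refine Mem.ext rfl rfl rfl rfl rfl ?_
    simp
  · intro i _
    refine Does.fin (does_dec r _) (by omega) ?_
    refine Mem.ext rfl rfl rfl rfl rfl ?_
    simp

/-- Add `t1` to `fl`. -/
def addT : Prog A T (Reg V) :=
  .seq (whileT (tReg .t1) (.seq (dec .t1) (.seq (inc .t2) (inc .fl)))) (mvReg .t2 .t1)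

theorem does_addT (m : Mem A T (Reg V)) (h2 : m.r .t2 = 0) :
    Does addT m (m.r .t1 * 9 + 4)
      { m with r := (Function.update m.r .fl (m.r .fl + m.r .t1)) } := by
  let I : ℕ → Mem A T (Reg V) := fun i => { m with r := (fun x => if x = .t1 then i
    else if x = .t2 then m.r .t1 - i else if x = .fl then m.r .fl + (m.r .t1 - i) else m.r x) }
  have a1 : Does (whileT (tReg .t1) (.seq (dec .t1) (.seq (inc .t2) (inc .fl)))) m
      (m.r .t1 * 5 + 2) (I 0) := by
    refine does_while (tests_tReg Reg.t1) I (m.r .t1) 3 ?_ rfl (by simp [I])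
      (by intro i _; simp [I]) ?_ (by omega)
    · refine Mem.ext rfl rfl rfl rfl rfl (funext fun x => ?_)
      simp only [I]
      split_ifs <;> simp_all
    · intro i hi
      refine Does.fin ((does_dec Reg.t1 _).seq ((does_inc Reg.t2 _).seq (does_inc Reg.fl _)))
        (by omega) ?_
      refine Mem.ext rfl rfl rfl rfl rfl (funext fun x => ?_)
      simp only [I, Function.update_apply]
      split_ifs <;> simp_all <;> omega
  have a2 := does_mvReg (p := Reg.t2) (q := Reg.t1) (by simp) (I 0)
  have e1 : (I 0).r .t2 = m.r .t1 := by simp [I]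
  have e2 : (I 0).r .t1 = 0 := by simp [I]
  rw [e1, e2] at a2
  refine Does.fin (a1.seq a2) (by omega) ?_
  refine Mem.ext rfl rfl rfl rfl rfl (funext fun x => ?_)
  simp only [I, Function.update_apply]
  split_ifs <;> simp_all

/-- Multiply `nn` by `t1`. -/
def mulStep : Prog A T (Reg V) :=
  .seq (whileT (tReg .nn) (.seq (dec .nn) addT)) (mvReg .fl .nn)

theorem does_mulStep (m : Mem A T (Reg V)) (h0 : m.r .fl = 0) (h2 : m.r .t2 = 0) :
    Does mulStep m (m.r .nn * (m.r .t1 * 9 + 7) + m.r .nn * m.r .t1 * 4 + 4)
      { m with r := (Function.update m.r .nn (m.r .nn * m.r .t1)) } := by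
  let I : ℕ → Mem A T (Reg V) := fun i => { m with r := (fun x => if x = .nn then i
    else if x = .fl then (m.r .nn - i) * m.r .t1 else m.r x) }
  have a1 : Does (whileT (tReg .nn) (.seq (dec .nn) addT)) m
      (m.r .nn * (m.r .t1 * 9 + 7) + 2) (I 0) := by
    refine does_while (tests_tReg Reg.nn) I (m.r .nn) (m.r .t1 * 9 + 5) ?_ rfl (by simp [I])
      (by intro i _; simp [I]) ?_ (by ring_nf; omega)
    · refine Mem.ext rfl rfl rfl rfl rfl (funext fun x => ?_)
      simp only [I]
      split_ifs <;> simp_all
    · intro i hi
      have a3 := does_addT { I (i + 1) with r := (Function.update (I (i + 1)).r .nn i) }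
        (by simp [I, h2])
      have e3 : Function.update (I (i + 1)).r .nn i .t1 = m.r .t1 := by simp [I]
      simp only [e3] at a3
      have a4 := does_dec Reg.nn (I (i + 1))
      have e4 : (I (i + 1)).r .nn - 1 = i := by simp [I]
      rw [e4] at a4
      refine Does.fin (a4.seq a3) (by omega) ?_
      have hsub : m.r .nn - i = m.r .nn - (i + 1) + 1 := by omega
      refine Mem.ext rfl rfl rfl rfl rfl (funext fun x => ?_)
      simp only [I, Function.update_apply, hsub]
      split_ifs <;> simp_all <;> ring
  have a2 := does_mvReg (p := Reg.fl) (q := Reg.nn) (by simp) (I 0)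
  have e1 : (I 0).r .fl = m.r .nn * m.r .t1 := by simp [I]
  have e2 : (I 0).r .nn = 0 := by simp [I]
  rw [e1, e2] at a2
  refine Does.fin (a1.seq a2) (by omega) ?_
  refine Mem.ext rfl rfl rfl rfl rfl (funext fun x => ?_)
  simp only [I, Function.update_apply]
  split_ifs <;> simp_all

/-- Multiply `nn` by `t1 ^ k`. -/
def powStep : ℕ → Prog A T (Reg V)
  | 0 => skip
  | k + 1 => .seq mulStep (powStep k)

/-- Time bound for `powStep`. -/
def powCost (q : ℕ) : ℕ → ℕ → ℕ
  | 0, _ => 1
  | k + 1, p => (p * (q * 9 + 7) + p * q * 4 + 4) + powCost q k (p * q)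

theorem does_powStep (k : ℕ) (m : Mem A T (Reg V)) (h0 : m.r .fl = 0) (h2 : m.r .t2 = 0) :
    Does (powStep k) m (powCost (m.r .t1) k (m.r .nn))
      { m with r := (Function.update m.r .nn (m.r .nn * m.r .t1 ^ k)) } := by
  induction k generalizing m with
  | zero => exact (does_skip m).congr (by simp)
  | succ k ih =>
    have a2 := ih { m with r := (Function.update m.r .nn (m.r .nn * m.r .t1)) }
      (by simp [h0]) (by simp [h2])
    have e1 : Function.update m.r .nn (m.r .nn * m.r .t1) .t1 = m.r .t1 := by simp
    simp only [e1, Function.update_self] at a2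
    refine Does.fin ((does_mulStep m h0 h2).seq a2) (by simp only [powCost]; omega) ?_
    refine Mem.ext rfl rfl rfl rfl rfl (funext fun x => ?_)
    simp only [Function.update_apply]
    split_ifs <;> simp_all
    ring

theorem powCost_polyBdd (k : ℕ) {f g : ℕ → ℕ} (hf : PolyBdd f) (hg : PolyBdd g) :
    PolyBdd fun n => powCost (f n) k (g n) := by
  induction k generalizing g with
  | zero => exact PolyBdd.const 1
  | succ k ih =>
    simp only [powCost]
    exact (((hg.mul ((hf.mul (.const _)).add (.const _))).add ((hg.mul hf).mul (.const _))).add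
      (.const _)).add (ih (hg.mul hf))

/-- Pop `xs`. -/
def popXs {R : Type} [DecidableEq R] : Prog A T R := .pop .xs fun v _ => v

theorem does_popXs {R : Type} [DecidableEq R] (m : Mem A T R) :
    Does popXs m 1 { m with xs := m.xs.tail } := by
  intro v
  refine ⟨v, 1, le_rfl, Cmd.Run.castStk
    (Cmd.Run.pop (Γ := Gam A T R) (σ := Var A T) .xs (fun v _ => v) v m.toStk) ?_⟩
  funext k
  cases k <;> simp [Mem.toStk] <;> rfl

theorem does_clearXs {R : Type} [DecidableEq R] (m : Mem A T R) :
    Does (whileT tXs popXs) m (m.xs.length * 3 + 2) { m with xs := [] } := by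
  refine does_while tests_tXs (fun i => { m with xs := (m.xs.drop (m.xs.length - i)) })
    m.xs.length 1 ?_ ?_ (by simp) ?_ ?_ (by omega)
  · refine Mem.ext rfl ?_ rfl rfl rfl rfl; simp
  · refine Mem.ext rfl ?_ rfl rfl rfl rfl; simp
  · intro i hi
    simp only
    cases hd : m.xs.drop (m.xs.length - (i + 1)) with
    | nil => rw [List.drop_eq_nil_iff] at hd; omega
    | cons _ _ => rfl
  · intro i hi
    refine Does.fin (does_popXs _) (by omega) ?_
    refine Mem.ext rfl ?_ rfl rfl rfl rfl
    simp only [List.tail_drop]
    congr 1
    omega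

theorem does_flush [Inhabited T] {R : Type} [DecidableEq R] (m : Mem A T R) (ho : m.out = []) :
    Does (whileT tRev mvRev) m (m.rev.length * 4 + 2)
      { m with rev := [], out := m.rev.reverse } := by
  refine does_while tests_tRev (fun i => { m with
      rev := (m.rev.drop (m.rev.length - i))
      out := ((m.rev.take (m.rev.length - i)).reverse) })
    m.rev.length 2 ?_ ?_ (by simp) ?_ ?_ (by omega)
  · refine Mem.ext rfl rfl rfl ?_ ?_ rfl <;> simp [ho]
  · refine Mem.ext rfl rfl rfl ?_ ?_ rfl <;> simp
  · intro i hi
    simp only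
    cases hd : m.rev.drop (m.rev.length - (i + 1)) with
    | nil => rw [List.drop_eq_nil_iff] at hd; omega
    | cons _ _ => rfl
  · intro i hi
    have hlt : m.rev.length - (i + 1) < m.rev.length := by omega
    have hsub : m.rev.length - i = m.rev.length - (i + 1) + 1 := by omega
    refine Does.fin (does_mvRev _ (m.rev[m.rev.length - (i + 1)])
      (m.rev.drop (m.rev.length - i)) ?_) (by omega) ?_
    · simp only
      rw [List.drop_eq_getElem_cons hlt, ← hsub]
    · refine Mem.ext rfl rfl rfl rfl ?_ rfl
      simp only
      rw [hsub, List.take_succ_eq_append_getElem hlt, List.reverse_append]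
      rfl

/-- The main program. -/
noncomputable def mainProg [Inhabited T] (g : Gen A T V) (a : ℕ) : Prog A T (Reg V) :=
  .seq readInp (.seq (incN .t1 a) (.seq (inc .nn) (.seq (powStep a) (.seq (clear .t1)
    (.seq g.comp (.seq (whileT tRev mvRev) (.seq (clear .nn) (whileT tXs popXs))))))))

/-- Time bound for the main program. -/
def mainCost (g : Gen A T V) (a n : ℕ) : ℕ :=
  (n * 9 + 4) + ((a + 1) + (1 + (powCost (n + a) a 1 + (((n + a) * 3 + 2) +
    (g.cost ((n + a) ^ a) + ((g.cost ((n + a) ^ a) * 4 + 2) + (((n + a) ^ a * 3 + 2) +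
      (n * 3 + 2))))))))

theorem mainCost_polyBdd (g : Gen A T V) (a : ℕ) : PolyBdd fun n => mainCost g a n := by
  have h1 : PolyBdd fun n => n + a := PolyBdd.id.add (.const _)
  have h2 : PolyBdd fun n => (n + a) ^ a := h1.pow a
  have h3 : PolyBdd fun n => g.cost ((n + a) ^ a) := (Gen.cost_polyBdd g).comp h2
  have h4 : PolyBdd fun n => powCost (n + a) a 1 := powCost_polyBdd a h1 (.const 1)
  exact ((PolyBdd.id.mul (.const _)).add (.const _)).add ((PolyBdd.const _).add
    ((PolyBdd.const _).add (h4.add (((h1.mul (.const _)).add (.const _)).add (h3.add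
      (((h3.mul (.const _)).add (.const _)).add (((h2.mul (.const _)).add (.const _)).add
        ((PolyBdd.id.mul (.const _)).add (.const _)))))))))

theorem does_mainProg [Inhabited T] (g : Gen A T V) (hg : g.WF) (a : ℕ) (x : List A) :
    Does (mainProg g a) ⟨x, [], [], [], [], fun _ => 0⟩ (mainCost g a x.length)
      ⟨[], [], [], [], g.eval ((x.length + a) ^ a) x (fun _ => 0), fun _ => 0⟩ := by
  have b1 := does_readInp (T := T) (V := V) x
  have b2 := does_incN (A := A) (T := T) (Reg.t1 : Reg V) a
    ⟨[], x.map some, [], [], [], Function.update (fun _ => 0) .t1 x.length⟩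
  simp only [Function.update_self, Function.update_idem] at b2
  have b3 := does_inc (A := A) (T := T) (Reg.nn : Reg V)
    ⟨[], x.map some, [], [], [], Function.update (fun _ => 0) .t1 (x.length + a)⟩
  have e3 : Function.update (fun _ : Reg V => 0) .t1 (x.length + a) .nn + 1 = 1 := by simp
  simp only [e3] at b3
  have b4 := does_powStep (A := A) (T := T) (V := V) a
    ⟨[], x.map some, [], [], [],
      Function.update (Function.update (fun _ => 0) .t1 (x.length + a)) .nn 1⟩
    (by simp) (by simp)
  have e4 : Function.update (Function.update (fun _ : Reg V => 0) .t1 (x.length + a)) .nn 1 .t1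
      = x.length + a := by simp
  simp only [e4, Function.update_self, one_mul, Function.update_idem] at b4
  have b5 := does_clear (A := A) (T := T) (Reg.t1 : Reg V) ⟨[], x.map some, [], [], [],
    Function.update (Function.update (fun _ => 0) .t1 (x.length + a)) .nn ((x.length + a) ^ a)⟩
  have e5 : Function.update (Function.update (fun _ : Reg V => 0) .t1 (x.length + a)) .nn
      ((x.length + a) ^ a) .t1 = x.length + a := by simp
  simp only [e5] at b5
  have e6 : Function.update (Function.update (Function.update (fun _ : Reg V => 0) .t1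
      (x.length + a)) .nn ((x.length + a) ^ a)) .t1 0 =
      Function.update (fun _ => 0) .nn ((x.length + a) ^ a) := by
    funext y
    simp only [Function.update_apply]
    split_ifs <;> simp_all
  rw [e6] at b5
  have b6 := g.does_comp hg ⟨[], x.map some, [], [], [],
    Function.update (fun _ => 0) .nn ((x.length + a) ^ a)⟩ (by simp) (by simp) (by simp) x rfl
    (by simp) (by simp)
  have e7 : Function.update (fun _ : Reg V => 0) .nn ((x.length + a) ^ a) .nn =
    (x.length + a) ^ a := by simp
  have e8 : (fun v : V => Function.update (fun _ : Reg V => 0) .nn ((x.length + a) ^ a) (.a v)) =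
    fun _ => 0 := by funext v; simp
  simp only [e7, e8, List.append_nil] at b6
  have b7 := does_flush (A := A) (T := T) (R := Reg V) ⟨[], x.map some, [],
    (g.eval ((x.length + a) ^ a) x (fun _ => 0)).reverse, [],
    Function.update (fun _ => 0) .nn ((x.length + a) ^ a)⟩ rfl
  simp only [List.reverse_reverse, List.length_reverse] at b7
  have b8 := does_clear (A := A) (T := T) (Reg.nn : Reg V) ⟨[], x.map some, [], [],
    g.eval ((x.length + a) ^ a) x (fun _ => 0),
    Function.update (fun _ => 0) .nn ((x.length + a) ^ a)⟩
  have e9 : Function.update (Function.update (fun _ : Reg V => 0) .nn ((x.length + a) ^ a)) .nn 0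
      = fun _ => 0 := by
    funext y
    simp only [Function.update_apply]
    split_ifs <;> simp_all
  simp only [e7, e9] at b8
  have b9 := does_clearXs (A := A) (T := T) (R := Reg V) ⟨[], x.map some, [], [],
    g.eval ((x.length + a) ^ a) x (fun _ => 0), fun _ => 0⟩
  simp only [List.length_map] at b9
  have hl := g.length_eval_le ((x.length + a) ^ a) x (fun _ => 0) (by simp)
  refine Does.fin (b1.seq (b2.seq (b3.seq (b4.seq (b5.seq (b6.seq (b7.seq (b8.seq b9))))))))
    ?_ rfl
  unfold mainCost
  omega

/-! ### The machine -/

/-- The machine that runs the main program. -/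
noncomputable def machine [Inhabited T] [Fintype A] [Fintype T] [Fintype V] (g : Gen A T V)
    (a : ℕ) : FinTM2 where
  K := Stk (Reg V)
  k₀ := .inp
  k₁ := .out
  Γ := Gam A T (Reg V)
  Λ := Option (Cmd.seq (mainProg g a) (.load fun _ => (false, none, none))).Lab
  main := some (Cmd.seq (mainProg g a) (.load fun _ => (false, none, none))).entry
  σ := Var A T
  initialState := (false, none, none)
  Γk₀Fin := inferInstanceAs (Fintype A)
  m
    | none => .halt
    | some l => (Cmd.seq (mainProg g a) (.load fun _ => (false, none, none))).tr some none l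

theorem gen_polyTime [Inhabited T] [Fintype A] [Fintype T] [Fintype V] (g : Gen A T V)
    (hg : g.WF) (a : ℕ) {β : Type} (eb : β → List T) (f : List A → β)
    (hf : ∀ x, eb (f x) = g.eval ((x.length + a) ^ a) x (fun _ => 0)) :
    Nonempty (TM2ComputableInPolyTime (id : List A → List A) eb f) := by
  obtain ⟨p, hp⟩ := mainCost_polyBdd g a
  have key : ∀ (x : List A) (o : List T), o = g.eval ((x.length + a) ^ a) x (fun _ => 0) →
      Nonempty (TM2OutputsInTime (machine g a) x (some o) ((p + 2).eval x.length)) := by
    intro x o ho
    subst ho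
    obtain ⟨v, n, hn, hr⟩ := does_mainProg g hg a x (false, none, none)
    have h1 := Cmd.Run.seq hr (Cmd.Run.load (fun _ => (false, none, none)) v _)
    have h2 := Cmd.tr_correct h1 (machine g a).m some none (fun _ => rfl)
    have h3 : Cmd.Steps (machine g a).m 1 ⟨some none, (false, none, none),
        Mem.toStk ⟨[], [], [], [], g.eval ((x.length + a) ^ a) x (fun _ => 0), fun _ => 0⟩⟩
        ⟨none, (false, none, none),
        Mem.toStk ⟨[], [], [], [], g.eval ((x.length + a) ^ a) x (fun _ => 0), fun _ => 0⟩⟩ :=
      Cmd.Steps.one rfl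
    have h4 := h2.trans h3
    have e1 : initList (machine g a) x = ⟨some (some
        (Cmd.seq (mainProg g a) (.load fun _ => (false, none, none))).entry), (false, none, none),
        Mem.toStk ⟨x, [], [], [], [], fun _ => 0⟩⟩ := by
      unfold initList
      congr 1
      funext k
      cases k <;> rfl
    have e2 : haltList (machine g a) (g.eval ((x.length + a) ^ a) x (fun _ => 0)) =
        ⟨none, (false, none, none),
        Mem.toStk ⟨[], [], [], [], g.eval ((x.length + a) ^ a) x (fun _ => 0), fun _ => 0⟩⟩ := by
      unfold haltList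
      congr 1
      funext k
      cases k <;> rfl
    refine ⟨⟨⟨n + 1 + 1, ?_⟩, ?_⟩⟩
    · exact (congrArg (fun c => (flip bind (machine g a).step)^[n + 1 + 1] (some c)) e1).trans
        (Eq.trans h4 (congrArg some e2.symm))
    · change n + 1 + 1 ≤ _
      rw [Polynomial.eval_add]
      have h6 : mainCost g a x.length ≤ p.eval x.length := hp x.length
      have h5 : Polynomial.eval x.length (2 : Polynomial ℕ) = 2 := by simp
      rw [h5]
      omega
  refine ⟨{
    tm := machine g a
    inputAlphabet := Equiv.refl _
    outputAlphabet := Equiv.refl _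
    time := p + 2
    outputsFun := ?_ }⟩
  intro x
  have h := key x (eb (f x)) (hf x)
  have h' : ∀ (l : List A) (l' : List T), l = x → l' = eb (f x) →
      TM2OutputsInTime (machine g a) l (some l') ((p + 2).eval x.length) := by
    rintro _ _ rfl rfl
    exact Classical.choice h
  exact h' (List.map (Equiv.refl A).invFun x) (List.map (Equiv.refl T).invFun (eb (f x)))
    (by simp) (by simp)

end Pool.Agent.Lib.PolyTM
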