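import Mathlib

/-!
# Structured programs over stacks, and their translation to Mathlib's `TM2` machines

`Cmd Γ σ` is a small language of while programs over finitely many stacks.  `Cmd.Run c s n s'`
says that the program `c`, started in the state `s`, ends in the state `s'` after `n` steps.
`Cmd.tr_correct` is the correctness of the translation to `TM2` statements, step by step.
-/

open Turing StateTransition

namespace Pool.Agent.Lib.PolyTM

variable {K : Type} [DecidableEq K]

/-- While programs over stacks. -/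
inductive Cmd (Γ : K → Type) (σ : Type) : Type
  | push (k : K) (f : σ → Γ k) : Cmd Γ σ
  | peek (k : K) (f : σ → Option (Γ k) → σ) : Cmd Γ σ
  | pop (k : K) (f : σ → Option (Γ k) → σ) : Cmd Γ σ
  | load (f : σ → σ) : Cmd Γ σ
  | seq (c₁ c₂ : Cmd Γ σ) : Cmd Γ σ
  | ite (p : σ → Bool) (c₁ c₂ : Cmd Γ σ) : Cmd Γ σ
  | loop (p : σ → Bool) (c : Cmd Γ σ) : Cmd Γ σ

namespace Cmd

variable {Γ : K → Type} {σ : Type}

/-- Big-step semantics with the number of steps. -/
inductive Run : Cmd Γ σ → σ → (∀ k, List (Γ k)) → ℕ → σ → (∀ k, List (Γ k)) → Prop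
  | push (k f v S) : Run (.push k f) v S 1 v (Function.update S k (f v :: S k))
  | peek (k f v S) : Run (.peek k f) v S 1 (f v (S k).head?) S
  | pop (k f v S) : Run (.pop k f) v S 1 (f v (S k).head?) (Function.update S k (S k).tail)
  | load (f v S) : Run (.load f) v S 1 (f v) S
  | seq {c₁ c₂ v S n v' S' m v'' S''} : Run c₁ v S n v' S' → Run c₂ v' S' m v'' S'' →
      Run (.seq c₁ c₂) v S (n + m) v'' S''
  | ite_true {p c₁ c₂ v S n v' S'} : p v = true → Run c₁ v S n v' S' →
      Run (.ite p c₁ c₂) v S (n + 1) v' S'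
  | ite_false {p c₁ c₂ v S n v' S'} : p v = false → Run c₂ v S n v' S' →
      Run (.ite p c₁ c₂) v S (n + 1) v' S'
  | loop_false {p c v S} : p v = false → Run (.loop p c) v S 1 v S
  | loop_true {p c v S n v' S' m v'' S''} : p v = true → Run c v S n v' S' →
      Run (.loop p c) v' S' m v'' S'' → Run (.loop p c) v S (n + m + 1) v'' S''

/-- The labels of the translated program. -/
def Lab : Cmd Γ σ → Type
  | .push _ _ => Unit
  | .peek _ _ => Unit
  | .pop _ _ => Unit
  | .load _ => Unit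
  | .seq c₁ c₂ => c₁.Lab ⊕ c₂.Lab
  | .ite _ c₁ c₂ => Option (c₁.Lab ⊕ c₂.Lab)
  | .loop _ c => Option c.Lab

noncomputable instance fintypeLab : (c : Cmd Γ σ) → Fintype c.Lab
  | .push _ _ => inferInstanceAs (Fintype Unit)
  | .peek _ _ => inferInstanceAs (Fintype Unit)
  | .pop _ _ => inferInstanceAs (Fintype Unit)
  | .load _ => inferInstanceAs (Fintype Unit)
  | .seq c₁ c₂ =>
    have := fintypeLab c₁
    have := fintypeLab c₂
    inferInstanceAs (Fintype (c₁.Lab ⊕ c₂.Lab))
  | .ite _ c₁ c₂ =>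
    have := fintypeLab c₁
    have := fintypeLab c₂
    inferInstanceAs (Fintype (Option (c₁.Lab ⊕ c₂.Lab)))
  | .loop _ c =>
    have := fintypeLab c
    inferInstanceAs (Fintype (Option c.Lab))

/-- The entry label. -/
def entry : (c : Cmd Γ σ) → c.Lab
  | .push _ _ => ()
  | .peek _ _ => ()
  | .pop _ _ => ()
  | .load _ => ()
  | .seq c₁ _ => Sum.inl c₁.entry
  | .ite _ _ _ => (none : Option _)
  | .loop _ _ => (none : Option _)

/-- The translation to `TM2` statements. -/
def tr {Λ : Type} : (c : Cmd Γ σ) → (c.Lab → Λ) → Λ → c.Lab → TM2.Stmt Γ Λ σ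
  | .push k f, _, out, _ => .push k f (.goto fun _ => out)
  | .peek k f, _, out, _ => .peek k f (.goto fun _ => out)
  | .pop k f, _, out, _ => .pop k f (.goto fun _ => out)
  | .load f, _, out, _ => .load f (.goto fun _ => out)
  | .seq c₁ c₂, ι, _, Sum.inl l => c₁.tr (fun l => ι (Sum.inl l)) (ι (Sum.inr c₂.entry)) l
  | .seq _ c₂, ι, out, Sum.inr l => c₂.tr (fun l => ι (Sum.inr l)) out l
  | .ite p c₁ c₂, ι, _, none =>
    .branch p (.goto fun _ => ι (some (Sum.inl c₁.entry))) (.goto fun _ => ι (some (Sum.inr c₂.entry)))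
  | .ite _ c₁ _, ι, out, some (Sum.inl l) => c₁.tr (fun l => ι (some (Sum.inl l))) out l
  | .ite _ _ c₂, ι, out, some (Sum.inr l) => c₂.tr (fun l => ι (some (Sum.inr l))) out l
  | .loop p c, ι, out, none =>
    .branch p (.goto fun _ => ι (some c.entry)) (.goto fun _ => out)
  | .loop _ c, ι, _, some l => c.tr (fun l => ι (some l)) (ι none) l

/-- `n` steps of the machine `M` lead from the configuration `a` to the configuration `b`. -/
def Steps {Λ : Type} (M : Λ → TM2.Stmt Γ Λ σ) (n : ℕ) (a b : TM2.Cfg Γ Λ σ) : Prop :=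
  (flip bind (TM2.step M))^[n] (some a) = some b

theorem Steps.trans {Λ : Type} {M : Λ → TM2.Stmt Γ Λ σ} {n m : ℕ} {a b c : TM2.Cfg Γ Λ σ}
    (h₁ : Steps M n a b) (h₂ : Steps M m b c) : Steps M (n + m) a c := by
  unfold Steps at *
  rw [Nat.add_comm, Function.iterate_add_apply, h₁, h₂]

theorem Steps.one {Λ : Type} {M : Λ → TM2.Stmt Γ Λ σ} {l : Λ} {v : σ} {S : ∀ k, List (Γ k)}
    {b : TM2.Cfg Γ Λ σ} (h : TM2.stepAux (M l) v S = b) : Steps M 1 ⟨some l, v, S⟩ b := by
  unfold Steps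
  simp only [Function.iterate_one, flip, Option.bind_eq_bind, Option.bind_some, TM2.step, h]

theorem tr_correct {c : Cmd Γ σ} {v : σ} {S : ∀ k, List (Γ k)} {n : ℕ} {v' : σ}
    {S' : ∀ k, List (Γ k)} (h : Run c v S n v' S') {Λ : Type} (M : Λ → TM2.Stmt Γ Λ σ)
    (ι : c.Lab → Λ) (out : Λ) (hM : ∀ l, M (ι l) = c.tr ι out l) :
    Steps M n ⟨some (ι c.entry), v, S⟩ ⟨some out, v', S'⟩ := by
  induction h generalizing out with
  | push k f v S => refine Steps.one ?_; rw [hM]; simp [tr]
  | peek k f v S => refine Steps.one ?_; rw [hM]; simp [tr]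
  | pop k f v S => refine Steps.one ?_; rw [hM]; simp [tr]
  | load f v S => refine Steps.one ?_; rw [hM]; simp [tr]
  | @seq c₁ c₂ _ _ _ _ _ _ _ _ _ _ ih₁ ih₂ =>
    refine (ih₁ (fun l => ι (Sum.inl l)) (ι (Sum.inr c₂.entry)) (fun l => ?_)).trans
      (ih₂ (fun l => ι (Sum.inr l)) out (fun l => ?_))
    · rw [hM (Sum.inl l)]; rfl
    · rw [hM (Sum.inr l)]; rfl
  | @ite_true p c₁ c₂ v S n v' S' hp _ ih =>
    rw [Nat.add_comm]
    refine (Steps.one (b := ⟨some (ι (some (Sum.inl c₁.entry))), v, S⟩) ?_).trans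
      (ih (fun l => ι (some (Sum.inl l))) out (fun l => ?_))
    · rw [hM]; simp [tr, entry, hp]
    · rw [hM (some (Sum.inl l))]; rfl
  | @ite_false p c₁ c₂ v S n v' S' hp _ ih =>
    rw [Nat.add_comm]
    refine (Steps.one (b := ⟨some (ι (some (Sum.inr c₂.entry))), v, S⟩) ?_).trans
      (ih (fun l => ι (some (Sum.inr l))) out (fun l => ?_))
    · rw [hM]; simp [tr, entry, hp]
    · rw [hM (some (Sum.inr l))]; rfl
  | @loop_false p c v S hp =>
    refine Steps.one ?_
    rw [hM]; simp [tr, entry, hp]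
  | @loop_true p c v S n v' S' m v'' S'' hp _ _ ih₁ ih₂ =>
    rw [Nat.add_comm (n + m)]
    refine (Steps.one (b := ⟨some (ι (some c.entry)), v, S⟩) ?_).trans
      ((ih₁ (fun l => ι (some l)) (ι none) (fun l => ?_)).trans (ih₂ ι out hM))
    · rw [hM]; simp [tr, entry, hp]
    · rw [hM (some l)]; rfl

end Cmd

end Pool.Agent.Lib.PolyTM
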