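import Pool.Agent.Lib.PolyTM.Mem

/-!
# A small language of output generators

A generator writes a string, depending on the input string `x` and a number `N`, with loops
`for v = 0, …, N - 1` and simple tests on the loop variables.  It is compiled to a `Prog`.
-/

open Turing StateTransition

set_option linter.unnecessarySeqFocus false
set_option linter.unreachableTactic false
set_option linter.unusedTactic false

namespace Pool.Agent.Lib.PolyTM

/-- Counters. -/
inductive Reg (V : Type) : Type
  | nn : Reg V
  | fl : Reg V
  | t1 : Reg V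
  | t2 : Reg V
  | a : V → Reg V
  | b : V → Reg V
  deriving DecidableEq

/-- `Reg` as a sum type. -/
def regEquiv (V : Type) : Reg V ≃ (Fin 4 ⊕ (V ⊕ V)) where
  toFun
    | .nn => .inl 0
    | .fl => .inl 1
    | .t1 => .inl 2
    | .t2 => .inl 3
    | .a v => .inr (.inl v)
    | .b v => .inr (.inr v)
  invFun
    | .inl 0 => .nn
    | .inl 1 => .fl
    | .inl 2 => .t1
    | .inl 3 => .t2
    | .inr (.inl v) => .a v
    | .inr (.inr v) => .b v
  left_inv s := by cases s <;> rfl
  right_inv s := by
    rcases s with s | s | s
    · fin_cases s <;> rfl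
    · rfl
    · rfl

noncomputable instance (V : Type) [Fintype V] : Fintype (Reg V) :=
  Fintype.ofEquiv _ (regEquiv V).symm

/-- Tests on loop variables. -/
inductive Test (A V : Type) : Type
  | eq : V → V → Test A V
  | succ : V → V → Test A V
  | zero : V → Test A V
  | last : V → Test A V
  | sym : V → Option A → Test A V

open Classical in
/-- The meaning of the tests. -/
noncomputable def Test.eval {A V : Type} (N : ℕ) (x : List A) (env : V → ℕ) : Test A V → Bool
  | .eq u v => decide (env u = env v)
  | .succ u v => decide (env u + 1 = env v)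
  | .zero v => decide (env v = 0)
  | .last v => decide (env v + 1 = N)
  | .sym v s => decide (x[env v]? = s)

/-- Generators. -/
inductive Gen (A T V : Type) : Type
  | out (w : List T) : Gen A T V
  | rep (v : V) (w : List T) : Gen A T V
  | seq (g₁ g₂ : Gen A T V) : Gen A T V
  | loop (v : V) (g : Gen A T V) : Gen A T V
  | ite (c : Test A V) (g₁ g₂ : Gen A T V) : Gen A T V

namespace Gen

variable {A T V : Type} [DecidableEq V]

/-- The string written by a generator. -/
noncomputable def eval (N : ℕ) (x : List A) : (V → ℕ) → Gen A T V → List T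
  | _, .out w => w
  | env, .rep v w => (List.replicate (env v) w).flatten
  | env, .seq g₁ g₂ => g₁.eval N x env ++ g₂.eval N x env
  | env, .loop v g => (List.range N).flatMap fun i => g.eval N x (Function.update env v i)
  | env, .ite c g₁ g₂ => bif c.eval N x env then g₁.eval N x env else g₂.eval N x env

/-- The variables bound by loops of the generator. -/
def Binds : Gen A T V → V → Prop
  | .out _, _ => False
  | .rep _ _, _ => False
  | .seq g₁ g₂, u => g₁.Binds u ∨ g₂.Binds u
  | .loop v g, u => u = v ∨ g.Binds u
  | .ite _ g₁ g₂, u => g₁.Binds u ∨ g₂.Binds u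

/-- No nested loops with the same variable. -/
def WF : Gen A T V → Prop
  | .out _ => True
  | .rep _ _ => True
  | .seq g₁ g₂ => g₁.WF ∧ g₂.WF
  | .loop v g => ¬ g.Binds v ∧ g.WF
  | .ite _ g₁ g₂ => g₁.WF ∧ g₂.WF

/-- A bound for the running time. -/
def cost (N : ℕ) : Gen A T V → ℕ
  | .out w => w.length + 1
  | .rep _ w => N * (w.length + 5) + 2 + (N * 4 + 2)
  | .seq g₁ g₂ => g₁.cost N + g₂.cost N
  | .loop _ g => N * 4 + 2 + (N * 5 + 2 + (N * (g.cost N + 4) + 2 + (N * 3 + 2)))
  | .ite _ g₁ g₂ => (N + 1) * 30 + 40 + (g₁.cost N + g₂.cost N + 3)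

end Gen

section compile

variable {A T V : Type} [DecidableEq V]

/-- Write a string. -/
def emitAll {R : Type} [DecidableEq R] : List T → Prog A T R
  | [] => skip
  | w :: ws => .seq (emit w) (emitAll ws)

theorem does_emitAll {R : Type} [DecidableEq R] (ws : List T) (m : Mem A T R) :
    Does (emitAll ws) m (ws.length + 1) { m with rev := ws.reverse ++ m.rev } := by
  induction ws generalizing m with
  | nil => exact does_skip m
  | cons w ws ih =>
    refine (((does_emit w m).seq (ih _)).mono ?_).congr ?_
    · simp only [List.length_cons]; omega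
    · simp

/-- Move the counter `p` to `q`. -/
def mvReg {R : Type} [DecidableEq R] (p q : R) : Prog A T R :=
  whileT (tReg p) (.seq (dec p) (inc q))

theorem does_mvReg {R : Type} [DecidableEq R] {p q : R} (hpq : p ≠ q) (m : Mem A T R) :
    Does (mvReg p q) m (m.r p * 4 + 2)
      { m with r := Function.update (Function.update m.r p 0) q (m.r q + m.r p) } := by
  refine does_while (tests_tReg p) (fun i =>
      { m with r := (Function.update (Function.update m.r p i) q (m.r q + (m.r p - i))) })
    (m.r p) 2 ?_ ?_ (by simp [Function.update_of_ne hpq])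
    (by intro i _; simp [Function.update_of_ne hpq]) ?_ (by omega)
  · refine Mem.ext rfl rfl rfl rfl rfl (funext fun x => ?_)
    simp only [Function.update_apply]
    split_ifs <;> simp_all
  · refine Mem.ext rfl rfl rfl rfl rfl (funext fun x => ?_)
    simp only [Function.update_apply]
    split_ifs <;> simp_all
  · intro i hi
    refine ((does_dec p _).seq (does_inc q _)).congr ?_
    refine Mem.ext rfl rfl rfl rfl rfl (funext fun x => ?_)
    simp only [Function.update_apply]
    split_ifs <;> simp_all <;> omega

/-- A counter other than `fl`, `t1`, `t2`. -/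
def Free (p : Reg V) : Prop := p ≠ .fl ∧ p ≠ .t1 ∧ p ≠ .t2

/-- Sets `fl` to `1` if the counters `p` and `q` are equal. -/
def eqTest (p q : Reg V) : Prog A T (Reg V) :=
  .seq (whileT (tReg p) (.seq (dec p) (.seq (inc .t1) (ifT (tReg q) (dec q) (inc .t2)))))
    (.seq (ifT (tReg q) skip (ifT (tReg .t2) skip (inc .fl)))
      (whileT (tReg .t1) (.seq (dec .t1) (.seq (inc p) (ifT (tReg .t2) (dec .t2) (inc q))))))

theorem does_eqTest {p q : Reg V} (hp : Free p) (hq : Free q) (hpq : p ≠ q)
    (m : Mem A T (Reg V)) (h0 : m.r .fl = 0) (h1 : m.r .t1 = 0) (h2 : m.r .t2 = 0) :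
    Does (eqTest p q) m (m.r p * 14 + 9)
      { m with r := (Function.update m.r .fl (if m.r p = m.r q then 1 else 0)) } := by
  obtain ⟨hp0, hp1, hp2⟩ := hp
  obtain ⟨hq0, hq1, hq2⟩ := hq
  -- the memory in the first loop
  let I : ℕ → Mem A T (Reg V) := fun i => { m with r := (fun x => if x = p then i
    else if x = .t1 then m.r p - i else if x = q then m.r q - (m.r p - i)
    else if x = .t2 then (m.r p - i) - m.r q else m.r x) }
  have Ip : ∀ i, (I i).r p = i := by simp [I]
  have Iq : ∀ i, (I i).r q = m.r q - (m.r p - i) := by simp [I, hpq.symm, hq1]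
  have It1 : ∀ i, (I i).r .t1 = m.r p - i := by simp [I, hp1.symm]
  have It2 : ∀ i, (I i).r .t2 = (m.r p - i) - m.r q := by simp [I, hp2.symm, hq2.symm]
  have a1 : Does (whileT (tReg p) (.seq (dec p) (.seq (inc .t1) (ifT (tReg q) (dec q) (inc .t2)))))
      m (m.r p * 7 + 2) (I 0) := by
    refine does_while (tests_tReg p) I (m.r p) 5 ?_ rfl (by simp [Ip]) (by intro i _; simp [Ip])
      ?_ (by omega)
    · refine Mem.ext rfl rfl rfl rfl rfl (funext fun x => ?_)
      simp only [I]
      split_ifs <;> simp_all
    · intro i hi
      by_cases hz : m.r q - (m.r p - (i + 1)) = 0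
      · refine Does.fin ((does_dec p _).seq ((does_inc Reg.t1 _).seq
          (does_ifT_false (tests_tReg q) ?_ (does_inc Reg.t2 _)))) (by omega) ?_
        · simp [Function.update_apply, hpq.symm, hq1, Iq, hz]
        · refine Mem.ext rfl rfl rfl rfl rfl (funext fun x => ?_)
          simp only [I, Function.update_apply]
          split_ifs <;> simp_all <;> omega
      · refine Does.fin ((does_dec p _).seq ((does_inc Reg.t1 _).seq
          (does_ifT_true (tests_tReg q) ?_ (does_dec q _)))) (by omega) ?_
        · simp [Function.update_apply, hpq.symm, hq1, Iq, hz]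
        · refine Mem.ext rfl rfl rfl rfl rfl (funext fun x => ?_)
          simp only [I, Function.update_apply]
          split_ifs <;> simp_all <;> omega
  let J : ℕ → Mem A T (Reg V) := fun i => { m with r := (fun x => if x = p then m.r p - i
    else if x = .t1 then i else if x = q then (m.r q - m.r p) + ((m.r p - i) - (m.r p - m.r q))
    else if x = .t2 then (m.r p - m.r q) - (m.r p - i) 
    else if x = .fl then (if m.r p = m.r q then 1 else 0) else m.r x) }
  have Jp : ∀ i, (J i).r p = m.r p - i := by simp [J]
  have Jq : ∀ i, (J i).r q = (m.r q - m.r p) + ((m.r p - i) - (m.r p - m.r q)) := by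
    simp [J, hpq.symm, hq1]
  have Jt1 : ∀ i, (J i).r .t1 = i := by simp [J, hp1.symm]
  have Jt2 : ∀ i, (J i).r .t2 = (m.r p - m.r q) - (m.r p - i) := by
    simp [J, hp2.symm, hq2.symm]
  have a2 : Does (ifT (tReg q) skip (ifT (tReg .t2) skip (inc .fl))) (I 0) 5 (J (m.r p)) := by
    by_cases hz : m.r q ≤ m.r p
    · by_cases hz' : m.r p ≤ m.r q
      · have he : m.r p = m.r q := le_antisymm hz' hz
        refine Does.fin (does_ifT_false (tests_tReg q) ?_ (does_ifT_false (tests_tReg _) ?_
          (does_inc Reg.fl _))) (by omega) ?_
        · simp [Iq, he]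
        · simp [It2, he]
        · refine Mem.ext rfl rfl rfl rfl rfl (funext fun x => ?_)
          simp only [I, J, Function.update_apply]
          split_ifs <;> simp_all
      · refine Does.fin (does_ifT_false (tests_tReg q) ?_ (does_ifT_true (tests_tReg _) ?_
          (does_skip _))) (by omega) ?_
        · simp [Iq]; omega
        · simp [It2]; omega
        · refine Mem.ext rfl rfl rfl rfl rfl (funext fun x => ?_)
          simp only [I, J]
          split_ifs <;> simp_all <;> omega
    · refine Does.fin (does_ifT_true (tests_tReg q) ?_ (does_skip _)) (by omega) ?_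
      · simp [Iq]; omega
      · refine Mem.ext rfl rfl rfl rfl rfl (funext fun x => ?_)
        simp only [I, J]
        split_ifs <;> simp_all <;> omega
  have a3 : Does (whileT (tReg .t1) (.seq (dec .t1) (.seq (inc p)
      (ifT (tReg .t2) (dec .t2) (inc q))))) (J (m.r p)) (m.r p * 7 + 2)
      { m with r := (Function.update m.r .fl (if m.r p = m.r q then 1 else 0)) } := by
    refine does_while (tests_tReg Reg.t1) J (m.r p) 5 rfl ?_ (by simp [Jt1])
      (by intro i _; simp [Jt1]) ?_ (by omega)
    · refine Mem.ext rfl rfl rfl rfl rfl (funext fun x => ?_)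
      simp only [J, Function.update_apply]
      split_ifs <;> simp_all <;> omega
    · intro i hi
      by_cases hz : (m.r p - m.r q) - (m.r p - (i + 1)) = 0
      · refine Does.fin ((does_dec Reg.t1 _).seq ((does_inc p _).seq
          (does_ifT_false (tests_tReg Reg.t2) ?_ (does_inc q _)))) (by omega) ?_
        · simp [Function.update_apply, hp2.symm, Jt2, hz]
        · refine Mem.ext rfl rfl rfl rfl rfl (funext fun x => ?_)
          simp only [J, Function.update_apply]
          split_ifs <;> simp_all <;> omega
      · refine Does.fin ((does_dec Reg.t1 _).seq ((does_inc p _).seq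
          (does_ifT_true (tests_tReg Reg.t2) ?_ (does_dec Reg.t2 _)))) (by omega) ?_
        · simp [Function.update_apply, hp2.symm, Jt2, hz]
        · refine Mem.ext rfl rfl rfl rfl rfl (funext fun x => ?_)
          simp only [J, Function.update_apply]
          split_ifs <;> simp_all <;> omega
  refine Does.fin (a1.seq (a2.seq a3)) (by omega) rfl

end compile

end Pool.Agent.Lib.PolyTM
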