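import Pool.Agent.Lib.PolyTM.Gen

/-!
# Compilation of generators
-/

open Turing StateTransition

set_option linter.unnecessarySeqFocus false
set_option linter.unreachableTactic false
set_option linter.unusedTactic false
set_option linter.unusedSectionVars false

namespace Pool.Agent.Lib.PolyTM

variable {A T V : Type} [DecidableEq V]

/-- Walk `a v` symbols down the stack `xs`. -/
def walk (v : V) : Prog A T (Reg V) :=
  whileT (tReg (.a v)) (.seq (dec (.a v)) (.seq (inc .t1) (ifT tXs (.seq mvXs (inc .t2)) skip)))

/-- Walk back. -/
def walkBack (v : V) : Prog A T (Reg V) :=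
  .seq (whileT (tReg .t2) (.seq (dec .t2) mvXt)) (mvReg .t1 (.a v))

open Classical in
/-- Sets `fl` to `1` if the symbol number `a v` of the input is `s`. -/
noncomputable def symTest (v : V) (s : Option A) : Prog A T (Reg V) :=
  .seq (walk v) (.seq (match s with
    | some a => ifT (tSym (some a)) (inc .fl) skip
    | none => ifT tXs skip (inc .fl)) (walkBack v))

theorem does_symTest (v : V) (s : Option A) (m : Mem A T (Reg V)) (h0 : m.r .fl = 0)
    (h1 : m.r .t1 = 0) (h2 : m.r .t2 = 0) (x : List A) (hx : m.xs = x.map some) :
    Does (symTest v s) m (m.r (.a v) * 20 + 20)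
      { m with r := (Function.update m.r .fl
        (bif Test.eval 0 x (fun v => m.r (.a v)) (.sym v s) then 1 else 0)) } := by
  classical
  let I : ℕ → Mem A T (Reg V) := fun i => { m with
    xs := (m.xs.drop (m.r (.a v) - i))
    xt := ((m.xs.take (m.r (.a v) - i)).reverse ++ m.xt)
    r := (fun x => if x = .a v then i
    else if x = .t1 then m.r (.a v) - i else if x = .t2 then min (m.r (.a v) - i) m.xs.length
    else m.r x) }
  have a1 : Does (walk v) m (m.r (.a v) * 9 + 2) (I 0) := by
    refine does_while (tests_tReg (Reg.a v)) I (m.r (.a v)) 7 ?_ rfl (by simp [I])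
      (by intro i _; simp [I]) ?_ (by omega)
    · refine Mem.ext rfl ?_ ?_ rfl rfl (funext fun x => ?_)
      · simp [I]
      · simp [I]
      · simp only [I]
        split_ifs <;> simp_all
    · intro i hi
      have hsub : m.r (.a v) - i = m.r (.a v) - (i + 1) + 1 := by omega
      cases hd : m.xs.drop (m.r (.a v) - (i + 1)) with
      | nil =>
        have hlen : m.xs.length ≤ m.r (.a v) - (i + 1) := List.drop_eq_nil_iff.1 hd
        refine Does.fin ((does_dec (Reg.a v) _).seq ((does_inc Reg.t1 _).seq
          (does_ifT_false tests_tXs ?_ (does_skip _)))) (by omega) ?_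
        · simp [I, hd]
        · refine Mem.ext rfl ?_ ?_ rfl rfl (funext fun x => ?_)
          · simp only [I]
            rw [hd, List.drop_eq_nil_iff.2 (by omega)]
          · simp only [I]
            rw [List.take_of_length_le hlen, List.take_of_length_le (by omega)]
          · have e1 : min (m.r (.a v) - (i + 1)) m.xs.length = m.xs.length := min_eq_right hlen
            have e2 : min (m.r (.a v) - i) m.xs.length = m.xs.length := min_eq_right (by omega)
            simp only [I, Function.update_apply, e1, e2]
            split_ifs <;> simp_all <;> omega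
      | cons y l =>
        have hlen : m.r (.a v) - (i + 1) < m.xs.length := by
          by_contra hc
          rw [List.drop_eq_nil_iff.2 (by omega)] at hd
          cases hd
        have hy : m.xs[m.r (.a v) - (i + 1)] = y := by
          have := List.drop_eq_getElem_cons hlen
          rw [hd] at this
          exact (List.cons.inj this).1.symm
        refine Does.fin ((does_dec (Reg.a v) _).seq ((does_inc Reg.t1 _).seq
          (does_ifT_true tests_tXs ?_ ((does_mvXs _ y l ?_).seq (does_inc Reg.t2 _))))) (by omega) ?_
        · simp [I, hd]
        · simp [I, hd]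
        · refine Mem.ext rfl ?_ ?_ rfl rfl (funext fun x => ?_)
          · simp only [I]
            rw [hsub, ← List.drop_drop, hd]
            rfl
          · simp only [I]
            rw [hsub, List.take_succ_eq_append_getElem hlen, List.reverse_append, hy]
            rfl
          · have e1 : min (m.r (.a v) - (i + 1)) m.xs.length = m.r (.a v) - (i + 1) :=
              min_eq_left hlen.le
            have e2 : min (m.r (.a v) - i) m.xs.length = m.r (.a v) - (i + 1) + 1 := by
              rw [hsub]; exact min_eq_left hlen
            simp only [I, Function.update_apply, e1, e2]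
            clear e1 e2 hy hd
            split_ifs <;> simp_all <;> omega
  let b : ℕ := bif Test.eval 0 x (fun v => m.r (.a v)) (.sym v s) then 1 else 0
  let J : ℕ → Mem A T (Reg V) := fun i => { m with
    xs := (m.xs.drop i)
    xt := ((m.xs.take i).reverse ++ m.xt)
    r := (fun x => if x = .a v then 0
    else if x = .t1 then m.r (.a v) else if x = .t2 then i
    else if x = .fl then b else m.r x) }
  have a2 : Does (match s with
    | some a => ifT (tSym (some a)) (inc .fl) skip
    | none => ifT tXs skip (inc .fl)) (I 0) 3 (J (min (m.r (.a v)) m.xs.length)) := by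
    have hxs : m.xs.drop (m.r (.a v)) = m.xs.drop (min (m.r (.a v)) m.xs.length) := by
      rcases le_total (m.r (.a v)) m.xs.length with h | h
      · rw [min_eq_left h]
      · rw [min_eq_right h, List.drop_eq_nil_iff.2 h, List.drop_length]
    have hxt : m.xs.take (m.r (.a v)) = m.xs.take (min (m.r (.a v)) m.xs.length) := by
      rcases le_total (m.r (.a v)) m.xs.length with h | h
      · rw [min_eq_left h]
      · rw [min_eq_right h, List.take_of_length_le h, List.take_length]
    have hhead : (m.xs.drop (m.r (.a v))).head? = (x[m.r (.a v)]?).map some := by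
      rw [List.head?_drop, hx, List.getElem?_map]
    cases s with
    | some a =>
      by_cases hs : x[m.r (.a v)]? = some a
      · refine Does.fin (does_ifT_true (tests_tSym (some a)) ?_ (does_inc Reg.fl _)) (by omega) ?_
        · simp only [I, Nat.sub_zero, hhead, hs]; simp
        · refine Mem.ext rfl ?_ ?_ rfl rfl (funext fun x => ?_)
          · simp only [I, J, Nat.sub_zero, hxs]
          · simp only [I, J, Nat.sub_zero, hxt]
          · simp only [I, J, b, Function.update_apply, Test.eval, hs]
            split_ifs <;> simp_all
      · refine Does.fin (does_ifT_false (tests_tSym (some a)) ?_ (does_skip _)) (by omega) ?_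
        · simp only [I, Nat.sub_zero, hhead]
          rw [decide_eq_false_iff_not]
          intro hc
          apply hs
          cases hx' : x[m.r (.a v)]? with
          | none => rw [hx'] at hc; simp at hc
          | some c => rw [hx'] at hc; simp at hc; rw [hc]
        · refine Mem.ext rfl ?_ ?_ rfl rfl (funext fun x => ?_)
          · simp only [I, J, Nat.sub_zero, hxs]
          · simp only [I, J, Nat.sub_zero, hxt]
          · simp only [I, J, b, Test.eval, hs]
            split_ifs <;> simp_all
    | none =>
      by_cases hs : x[m.r (.a v)]? = none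
      · refine Does.fin (does_ifT_false tests_tXs ?_ (does_inc Reg.fl _)) (by omega) ?_
        · simp only [I, Nat.sub_zero]
          have h3 : m.xs.drop (m.r (.a v)) = [] := by
            rw [List.drop_eq_nil_iff, hx, List.length_map]
            exact List.getElem?_eq_none_iff.1 hs
          rw [h3]; rfl
        · refine Mem.ext rfl ?_ ?_ rfl rfl (funext fun x => ?_)
          · simp only [I, J, Nat.sub_zero, hxs]
          · simp only [I, J, Nat.sub_zero, hxt]
          · simp only [I, J, b, Function.update_apply, Test.eval, hs]
            split_ifs <;> simp_all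
      · refine Does.fin (does_ifT_true tests_tXs ?_ (does_skip _)) (by omega) ?_
        · simp only [I, Nat.sub_zero]
          have h3 : m.xs.drop (m.r (.a v)) ≠ [] := by
            intro hc
            rw [List.drop_eq_nil_iff, hx, List.length_map] at hc
            exact hs (List.getElem?_eq_none_iff.2 hc)
          cases h4 : m.xs.drop (m.r (.a v)) with
          | nil => exact absurd h4 h3
          | cons _ _ => rfl
        · refine Mem.ext rfl ?_ ?_ rfl rfl (funext fun x => ?_)
          · simp only [I, J, Nat.sub_zero, hxs]
          · simp only [I, J, Nat.sub_zero, hxt]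
          · simp only [I, J, b, Test.eval, hs]
            split_ifs <;> simp_all
  have a3 : Does (whileT (tReg .t2) (.seq (dec .t2) mvXt)) (J (min (m.r (.a v)) m.xs.length))
      (m.r (.a v) * 5 + 2) (J 0) := by
    refine does_while (tests_tReg Reg.t2) J _ 3 rfl rfl (by simp [J])
      (by intro i _; simp [J]) ?_ ?_
    · intro i hi
      have hlt : i < m.xs.length := by omega
      refine Does.fin ((does_dec Reg.t2 _).seq (does_mvXt _ (m.xs[i])
        ((m.xs.take i).reverse ++ m.xt) ?_)) (by omega) ?_
      · simp only [J]
        rw [List.take_succ_eq_append_getElem hlt, List.reverse_append]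
        rfl
      · refine Mem.ext rfl ?_ ?_ rfl rfl (funext fun x => ?_)
        · simp only [J]
          rw [List.drop_eq_getElem_cons hlt]
        · simp only [J]
        · simp only [J, Function.update_apply]
          split_ifs <;> simp_all
    · have : min (m.r (.a v)) m.xs.length ≤ m.r (.a v) := min_le_left _ _
      nlinarith
  have a4 : Does (mvReg .t1 (.a v)) (J 0) (m.r (.a v) * 4 + 2)
      { m with r := (Function.update m.r .fl b) } := by
    have hJ : (J 0).r .t1 = m.r (.a v) := by simp [J]
    have h5 := does_mvReg (p := Reg.t1) (q := Reg.a v) (by simp) (J 0)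
    rw [hJ] at h5
    refine Does.fin h5 le_rfl ?_
    refine Mem.ext rfl ?_ ?_ rfl rfl (funext fun x => ?_)
    · simp [J]
    · simp [J]
    · simp only [J, Function.update_apply]
      split_ifs <;> simp_all
  exact Does.fin (a1.seq (a2.seq (a3.seq a4))) (by omega) rfl

/-- The program for a test: it sets `fl` to `1` if the test succeeds. -/
noncomputable def testCmd : Test A V → Prog A T (Reg V)
  | .eq u v => if u = v then inc .fl else eqTest (.a u) (.a v)
  | .succ u v => if u = v then skip else .seq (inc (.a u)) (.seq (eqTest (.a u) (.a v)) (dec (.a u)))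
  | .zero v => ifT (tReg (.a v)) skip (inc .fl)
  | .last v => .seq (inc (.a v)) (.seq (eqTest (.a v) .nn) (dec (.a v)))
  | .sym v s => symTest v s

theorem free_a (v : V) : Free (Reg.a v) := ⟨by simp, by simp, by simp⟩

theorem free_nn : Free (Reg.nn : Reg V) := ⟨by simp, by simp, by simp⟩

theorem does_testCmd (c : Test A V) (m : Mem A T (Reg V)) (h0 : m.r .fl = 0)
    (h1 : m.r .t1 = 0) (h2 : m.r .t2 = 0) (x : List A) (hx : m.xs = x.map some)
    (N : ℕ) (hN : ∀ v, m.r (.a v) ≤ N) :
    Does (testCmd c) m ((N + 1) * 20 + 20) { m with r := (Function.update m.r .fl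
        (bif Test.eval (m.r .nn) x (fun v => m.r (.a v)) c then 1 else 0)) } := by
  cases c with
  | eq u v =>
    simp only [testCmd]
    split_ifs with huv
    · subst huv
      refine Does.fin (does_inc Reg.fl m) (by omega) ?_
      simp [Test.eval, h0]
    · have hne : Reg.a u ≠ Reg.a v := fun h => huv (Reg.a.inj h)
      have := hN u
      refine Does.fin (does_eqTest (free_a u) (free_a v) hne m h0 h1 h2) (by omega) ?_
      by_cases h : m.r (.a u) = m.r (.a v) <;> simp [Test.eval, h]
  | succ u v =>
    simp only [testCmd]
    split_ifs with huv
    · subst huv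
      refine Does.fin (does_skip m) (by omega) ?_
      refine Mem.ext rfl rfl rfl rfl rfl (funext fun x => ?_)
      simp only [Function.update_apply, Test.eval]
      split_ifs <;> simp_all
    · have hne : Reg.a u ≠ Reg.a v := fun h => huv (Reg.a.inj h)
      have := hN u
      have h3 := (does_inc (Reg.a u) m)
      have h4 := does_eqTest (free_a u) (free_a v) hne
        { m with r := (Function.update m.r (.a u) (m.r (.a u) + 1)) }
        (by simp [h0]) (by simp [h1]) (by simp [h2])
      simp only [Function.update_self] at h4
      refine Does.fin (h3.seq (h4.seq (does_dec (Reg.a u) _))) (by omega) ?_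
      refine Mem.ext rfl rfl rfl rfl rfl (funext fun x => ?_)
      simp only [Function.update_apply, Test.eval]
      have hne' : Reg.a v ≠ Reg.a u := hne.symm
      split_ifs <;> simp_all
  | zero v =>
    unfold testCmd
    by_cases hz : m.r (.a v) = 0
    · refine Does.fin (does_ifT_false (tests_tReg _) (by simp [hz]) (does_inc Reg.fl _))
        (by omega) ?_
      simp [Test.eval, h0, hz]
    · refine Does.fin (does_ifT_true (tests_tReg _) (by simp [hz]) (does_skip _))
        (by omega) ?_
      refine Mem.ext rfl rfl rfl rfl rfl (funext fun x => ?_)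
      simp only [Function.update_apply, Test.eval]
      split_ifs <;> simp_all
  | last v =>
    unfold testCmd
    have := hN v
    have h3 := (does_inc (Reg.a v) m)
    have h4 := does_eqTest (free_a v) free_nn (by simp)
      { m with r := (Function.update m.r (.a v) (m.r (.a v) + 1)) }
      (by simp [h0]) (by simp [h1]) (by simp [h2])
    simp only [Function.update_self] at h4
    refine Does.fin (h3.seq (h4.seq (does_dec (Reg.a v) _))) (by omega) ?_
    refine Mem.ext rfl rfl rfl rfl rfl (funext fun x => ?_)
    simp only [Function.update_apply, Test.eval]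
    split_ifs <;> simp_all
  | sym v s =>
    have := hN v
    refine Does.fin (does_symTest v s m h0 h1 h2 x hx) (by omega) ?_
    rfl

namespace Gen

/-- The program for a generator. -/
noncomputable def comp : Gen A T V → Prog A T (Reg V)
  | .out w => emitAll w
  | .rep v w => .seq (whileT (tReg (.a v)) (.seq (dec (.a v)) (.seq (inc .t1) (emitAll w))))
      (mvReg .t1 (.a v))
  | .seq g₁ g₂ => .seq g₁.comp g₂.comp
  | .loop v g => .seq (mvReg .nn .t1) (.seq
      (whileT (tReg .t1) (.seq (dec .t1) (.seq (inc .nn) (inc (.b v))))) (.seq
      (whileT (tReg (.b v)) (.seq (dec (.b v)) (.seq g.comp (inc (.a v)))))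
      (whileT (tReg (.a v)) (dec (.a v)))))
  | .ite c g₁ g₂ => .seq (testCmd c) (ifT (tReg .fl) (.seq (dec .fl) g₁.comp) g₂.comp)

/-- Correctness of the compilation. -/
theorem does_comp (g : Gen A T V) (hg : g.WF) (m : Mem A T (Reg V)) (h0 : m.r .fl = 0)
    (h1 : m.r .t1 = 0) (h2 : m.r .t2 = 0) (x : List A) (hx : m.xs = x.map some)
    (hN : ∀ v, m.r (.a v) ≤ m.r .nn)
    (hb : ∀ v, g.Binds v → m.r (.a v) = 0 ∧ m.r (.b v) = 0) :
    Does g.comp m (g.cost (m.r .nn)) { m with
      rev := ((g.eval (m.r .nn) x (fun v => m.r (.a v))).reverse ++ m.rev) } := by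
  induction g generalizing m with
  | out w => exact does_emitAll w m
  | rep v w =>
    let I : ℕ → Mem A T (Reg V) := fun i => { m with
      rev := ((List.replicate (m.r (.a v) - i) w).flatten.reverse ++ m.rev)
      r := (fun x => if x = .a v then i else if x = .t1 then m.r (.a v) - i else m.r x) }
    have a1 : Does (whileT (tReg (.a v)) (.seq (dec (.a v)) (.seq (inc .t1) (emitAll w)))) m
        (m.r .nn * (w.length + 5) + 2) (I 0) := by
      refine does_while (tests_tReg (Reg.a v)) I (m.r (.a v)) (w.length + 3) ?_ rfl (by simp [I])
        (by intro i _; simp [I]) ?_ ?_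
      · refine Mem.ext rfl rfl rfl ?_ rfl (funext fun x => ?_)
        · simp [I]
        · simp only [I]
          split_ifs <;> simp_all
      · intro i hi
        refine Does.fin ((does_dec (Reg.a v) _).seq ((does_inc Reg.t1 _).seq (does_emitAll w _)))
          (by omega) ?_
        refine Mem.ext rfl rfl rfl ?_ rfl (funext fun x => ?_)
        · simp only [I]
          have hsub : m.r (.a v) - i = m.r (.a v) - (i + 1) + 1 := by omega
          rw [hsub, List.replicate_succ', List.flatten_append, List.reverse_append]
          simp
        · simp only [I, Function.update_apply]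
          split_ifs <;> simp_all <;> omega
      · have := hN v
        have h5 : m.r (.a v) * (w.length + 3 + 2) ≤ m.r .nn * (w.length + 5) :=
          Nat.mul_le_mul_right _ this
        omega
    have a2 : Does (mvReg .t1 (.a v)) (I 0) (m.r .nn * 4 + 2) { m with
        rev := ((List.replicate (m.r (.a v)) w).flatten.reverse ++ m.rev) } := by
      have hI : (I 0).r .t1 = m.r (.a v) := by simp [I]
      have h5 := does_mvReg (p := Reg.t1) (q := Reg.a v) (by simp) (I 0)
      rw [hI] at h5
      have := hN v
      refine Does.fin h5 (by omega) ?_
      refine Mem.ext rfl rfl rfl ?_ rfl (funext fun x => ?_)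
      · simp [I]
      · simp only [I, Function.update_apply]
        split_ifs <;> simp_all
    exact Does.fin (a1.seq a2) (by simp only [cost]; omega) rfl
  | seq g₁ g₂ ih₁ ih₂ =>
    have a1 := ih₁ hg.1 m h0 h1 h2 hx hN (fun v hv => hb v (Or.inl hv))
    have a2 := ih₂ hg.2 { m with
      rev := ((g₁.eval (m.r .nn) x (fun v => m.r (.a v))).reverse ++ m.rev) } h0 h1 h2 hx hN
      (fun v hv => hb v (Or.inr hv))
    refine Does.fin (a1.seq a2) (by simp only [cost]; omega) ?_
    simp [eval]
  | ite c g₁ g₂ ih₁ ih₂ =>
    have a0 := does_testCmd c m h0 h1 h2 x hx (m.r .nn) hN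
    cases hc : Test.eval (m.r .nn) x (fun v => m.r (.a v)) c with
    | false =>
      rw [hc] at a0
      have e : Function.update m.r .fl (bif false then 1 else 0) = m.r := by
        simp only [cond_false]
        rw [← h0, Function.update_eq_self]
      rw [e] at a0
      have a2 := ih₂ hg.2 m h0 h1 h2 hx hN (fun v hv => hb v (Or.inr hv))
      refine Does.fin (a0.seq (does_ifT_false (tests_tReg Reg.fl) (by simp [h0]) a2))
        (by simp only [cost]; omega) ?_
      simp [eval, hc]
    | true =>
      rw [hc] at a0
      have a1 := ih₁ hg.1 m h0 h1 h2 hx hN (fun v hv => hb v (Or.inl hv))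
      have a3 := does_dec Reg.fl { m with r := (Function.update m.r .fl 1) }
      have e : ({ m with r := (Function.update (Function.update m.r .fl 1) .fl
          (Function.update m.r .fl 1 .fl - 1)) } : Mem A T (Reg V)) = m := by
        refine Mem.ext rfl rfl rfl rfl rfl (funext fun x => ?_)
        simp only [Function.update_apply]
        split_ifs <;> simp_all
      rw [e] at a3
      refine Does.fin (a0.seq (does_ifT_true (tests_tReg Reg.fl) (by simp) (a3.seq a1)))
        (by simp only [cost]; omega) ?_
      simp [eval, hc]
  | loop v g ih =>
    obtain ⟨hv, hg⟩ := hg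
    obtain ⟨hav, hbv⟩ := hb v (Or.inl rfl)
    -- copy `nn` to `b v`
    have a1 := does_mvReg (p := Reg.nn) (q := Reg.t1) (by simp) m
    rw [h1, Nat.zero_add] at a1
    let I : ℕ → Mem A T (Reg V) := fun i => { m with
      r := (fun x => if x = .t1 then i else if x = .nn then m.r .nn - i
        else if x = .b v then m.r .nn - i else m.r x) }
    have a2 : Does (whileT (tReg .t1) (.seq (dec .t1) (.seq (inc .nn) (inc (.b v)))))
        (I (m.r .nn)) (m.r .nn * 5 + 2) (I 0) := by
      refine does_while (tests_tReg Reg.t1) I (m.r .nn) 3 rfl rfl (by simp [I])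
        (by intro i _; simp [I]) ?_ (by omega)
      intro i hi
      refine Does.fin ((does_dec Reg.t1 _).seq ((does_inc Reg.nn _).seq (does_inc (Reg.b v) _)))
        (by omega) ?_
      refine Mem.ext rfl rfl rfl rfl rfl (funext fun x => ?_)
      simp only [I, Function.update_apply]
      split_ifs <;> simp_all <;> omega
    let W : ℕ → List T := fun i => (List.range i).flatMap fun i =>
      g.eval (m.r .nn) x (Function.update (fun v => m.r (.a v)) v i)
    let J : ℕ → Mem A T (Reg V) := fun i => { m with
      rev := ((W (m.r .nn - i)).reverse ++ m.rev)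
      r := (fun x => if x = .b v then i else if x = .a v then m.r .nn - i else m.r x) }
    have a3 : Does (whileT (tReg (.b v)) (.seq (dec (.b v)) (.seq g.comp (inc (.a v)))))
        (J (m.r .nn)) (m.r .nn * (g.cost (m.r .nn) + 4) + 2) (J 0) := by
      refine does_while (tests_tReg (Reg.b v)) J (m.r .nn) (g.cost (m.r .nn) + 2) rfl rfl
        (by simp [J]) (by intro i _; simp [J]) ?_ (by ring_nf; omega)
      intro i hi
      have b1 := does_dec (Reg.b v) (J (i + 1))
      let m' : Mem A T (Reg V) := { m with
        rev := ((W (m.r .nn - (i + 1))).reverse ++ m.rev)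
        r := (fun x => if x = .b v then i else if x = .a v then m.r .nn - (i + 1) else m.r x) }
      have e1 : ({ J (i + 1) with r := (Function.update (J (i + 1)).r (.b v)
          ((J (i + 1)).r (.b v) - 1)) } : Mem A T (Reg V)) = m' := by
        refine Mem.ext rfl rfl rfl rfl rfl (funext fun x => ?_)
        simp only [J, m', Function.update_apply]
        split_ifs <;> simp_all
      rw [e1] at b1
      have b2 := ih hg m' (by simp [m', h0]) (by simp [m', h1]) (by simp [m', h2]) hx
        (by
          intro u
          simp only [m']
          split_ifs <;> simp_all)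
        (by
          intro u hu
          have hne : u ≠ v := fun h => hv (h ▸ hu)
          obtain ⟨h5, h6⟩ := hb u (Or.inr hu)
          simp [m', hne, h5, h6])
      have hnn : m'.r .nn = m.r .nn := by simp [m']
      rw [hnn] at b2
      refine Does.fin (b1.seq (b2.seq (does_inc (Reg.a v) _))) (by omega) ?_
      have hsub : m.r .nn - i = m.r .nn - (i + 1) + 1 := by omega
      refine Mem.ext rfl rfl rfl ?_ rfl (funext fun x => ?_)
      · simp only [J, m']
        have e2 : (fun u => (if (Reg.a u) = .b v then i else if (Reg.a u) = .a v then
            m.r .nn - (i + 1) else m.r (.a u))) =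
            Function.update (fun v => m.r (.a v)) v (m.r .nn - (i + 1)) := by
          funext u
          simp only [Function.update_apply]
          split_ifs <;> simp_all
        rw [e2, hsub]
        simp only [W]
        rw [List.range_succ, List.flatMap_append, List.reverse_append]
        simp
      · simp only [J, m', Function.update_apply]
        split_ifs <;> simp_all <;> omega
    have a4 : Does (whileT (tReg (.a v)) (dec (.a v))) (J 0) (m.r .nn * 3 + 2) { m with
        rev := ((W (m.r .nn)).reverse ++ m.rev) } := by
      refine does_while (tests_tReg (Reg.a v)) (fun i => { m with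
        rev := ((W (m.r .nn)).reverse ++ m.rev)
        r := (Function.update m.r (.a v) i) }) (m.r .nn) 1 ?_ ?_ (by simp)
        (by intro i _; simp) ?_ (by omega)
      · refine Mem.ext rfl rfl rfl rfl rfl (funext fun x => ?_)
        simp only [J, Function.update_apply]
        split_ifs <;> simp_all
      · refine Mem.ext rfl rfl rfl rfl rfl (funext fun x => ?_)
        simp only [Function.update_apply]
        split_ifs <;> simp_all
      · intro i hi
        refine Does.fin (does_dec (Reg.a v) _) (by omega) ?_
        refine Mem.ext rfl rfl rfl rfl rfl (funext fun x => ?_)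
        simp only [Function.update_apply]
        split_ifs <;> simp_all
    have e3 : ({ m with r := (Function.update (Function.update m.r .nn 0) .t1 (m.r .nn)) } :
        Mem A T (Reg V)) = I (m.r .nn) := by
      refine Mem.ext rfl rfl rfl rfl rfl (funext fun x => ?_)
      simp only [I, Function.update_apply]
      split_ifs <;> simp_all
    rw [e3] at a1
    have e4 : I 0 = J (m.r .nn) := by
      refine Mem.ext rfl rfl rfl ?_ rfl (funext fun x => ?_)
      · simp [I, J, W]
      · simp only [I, J]
        split_ifs <;> simp_all
    rw [e4] at a2
    refine Does.fin (a1.seq (a2.seq (a3.seq a4))) (by simp only [cost]; omega) ?_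
    simp [eval, W]

end Gen

end Pool.Agent.Lib.PolyTM
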