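import Pool.Agent.Lib.PolyTM.Cmd

/-!
# Programs with counters, an input string and an output string

A concrete choice of stacks: the input stack, two work stacks for the input symbols, a stack that
collects the output in reverse, the output stack and finitely many counters (stacks of ticks).
`Does c m t m'` says that the program `c` changes the memory `m` to `m'` in at most `t` steps,
whatever the internal state is.
-/

open Turing StateTransition

namespace Pool.Agent.Lib.PolyTM

/-- The stacks. -/
inductive Stk (R : Type) : Type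
  | inp : Stk R
  | xs : Stk R
  | xt : Stk R
  | rev : Stk R
  | out : Stk R
  | reg : R → Stk R
  deriving DecidableEq

/-- `Stk` as a sum type. -/
def stkEquiv (R : Type) : Stk R ≃ (Fin 5 ⊕ R) where
  toFun
    | .inp => .inl 0
    | .xs => .inl 1
    | .xt => .inl 2
    | .rev => .inl 3
    | .out => .inl 4
    | .reg r => .inr r
  invFun
    | .inl 0 => .inp
    | .inl 1 => .xs
    | .inl 2 => .xt
    | .inl 3 => .rev
    | .inl 4 => .out
    | .inr r => .reg r
  left_inv s := by cases s <;> rfl
  right_inv s := by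
    rcases s with s | s
    · fin_cases s <;> rfl
    · rfl

noncomputable instance (R : Type) [Fintype R] : Fintype (Stk R) :=
  Fintype.ofEquiv _ (stkEquiv R).symm

/-- The alphabets of the stacks. -/
def Gam (A T R : Type) : Stk R → Type
  | .inp => A
  | .xs => Option A
  | .xt => Option A
  | .rev => T
  | .out => T
  | .reg _ => Unit

/-- The internal states. -/
abbrev Var (A T : Type) : Type := Bool × Option A × Option T

/-- The contents of the stacks. -/
@[ext]
structure Mem (A T R : Type) : Type where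
  inp : List A
  xs : List (Option A)
  xt : List (Option A)
  rev : List T
  out : List T
  r : R → ℕ

/-- Programs. -/
abbrev Prog (A T R : Type) [DecidableEq R] : Type := Cmd (Gam A T R) (Var A T)

variable {A T R : Type} [DecidableEq R]

namespace Mem

/-- The stacks given by the memory. -/
def toStk (m : Mem A T R) : ∀ k, List (Gam A T R k)
  | .inp => m.inp
  | .xs => m.xs
  | .xt => m.xt
  | .rev => m.rev
  | .out => m.out
  | .reg r => List.replicate (m.r r) ()

end Mem

theorem Cmd.Run.castStk {K : Type} [DecidableEq K] {Γ : K → Type} {σ : Type} {c : Cmd Γ σ}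
    {v v' : σ} {S S' S'' : ∀ k, List (Γ k)} {n : ℕ} (h : Cmd.Run c v S n v' S')
    (hS : S' = S'') : Cmd.Run c v S n v' S'' := hS ▸ h

/-- The program `c` changes the memory `m` to `m'` in at most `t` steps. -/
def Does (c : Prog A T R) (m : Mem A T R) (t : ℕ) (m' : Mem A T R) : Prop :=
  ∀ v, ∃ v' n, n ≤ t ∧ Cmd.Run c v m.toStk n v' m'.toStk

theorem Does.mono {c : Prog A T R} {m m' : Mem A T R} {t t' : ℕ} (h : Does c m t m')
    (ht : t ≤ t') : Does c m t' m' := by
  intro v
  obtain ⟨v', n, hn, hr⟩ := h v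
  exact ⟨v', n, hn.trans ht, hr⟩

theorem Does.seq {c₁ c₂ : Prog A T R} {m m' m'' : Mem A T R} {t t' : ℕ} (h₁ : Does c₁ m t m')
    (h₂ : Does c₂ m' t' m'') : Does (.seq c₁ c₂) m (t + t') m'' := by
  intro v
  obtain ⟨v', n, hn, hr⟩ := h₁ v
  obtain ⟨v'', n', hn', hr'⟩ := h₂ v'
  exact ⟨v'', n + n', Nat.add_le_add hn hn', .seq hr hr'⟩

/-- Do nothing. -/
def skip : Prog A T R := .load id

theorem does_skip (m : Mem A T R) : Does skip m 1 m := fun v => ⟨v, 1, le_rfl, .load _ _ _⟩

/-- Increment a counter. -/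
def inc (r : R) : Prog A T R := .push (.reg r) fun _ => ()

theorem does_inc (r : R) (m : Mem A T R) :
    Does (inc r) m 1 { m with r := Function.update m.r r (m.r r + 1) } := by
  intro v
  refine ⟨v, 1, le_rfl, Cmd.Run.castStk
    (Cmd.Run.push (Γ := Gam A T R) (σ := Var A T) (.reg r) (fun _ => ()) v m.toStk) ?_⟩
  funext k
  cases k with
  | reg s =>
    by_cases hs : s = r
    · subst hs
      simp [Mem.toStk, List.replicate_succ]
    · have : (Stk.reg s : Stk R) ≠ Stk.reg r := fun h => hs (Stk.reg.inj h)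
      simp [Mem.toStk, Function.update_of_ne this, Function.update_of_ne hs]
  | _ => simp [Mem.toStk]

/-- Decrement a counter (nothing happens if it is zero). -/
def dec (r : R) : Prog A T R := .pop (.reg r) fun v _ => v

theorem does_dec (r : R) (m : Mem A T R) :
    Does (dec r) m 1 { m with r := Function.update m.r r (m.r r - 1) } := by
  intro v
  refine ⟨v, 1, le_rfl, Cmd.Run.castStk
    (Cmd.Run.pop (Γ := Gam A T R) (σ := Var A T) (.reg r) (fun v _ => v) v m.toStk) ?_⟩
  funext k
  cases k with
  | reg s =>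
    by_cases hs : s = r
    · subst hs
      simp [Mem.toStk]
    · have : (Stk.reg s : Stk R) ≠ Stk.reg r := fun h => hs (Stk.reg.inj h)
      simp [Mem.toStk, Function.update_of_ne this, Function.update_of_ne hs]
  | _ => simp [Mem.toStk]

/-- Write an output symbol. -/
def emit (w : T) : Prog A T R := .push .rev fun _ => w

theorem does_emit (w : T) (m : Mem A T R) : Does (emit w) m 1 { m with rev := w :: m.rev } := by
  intro v
  refine ⟨v, 1, le_rfl, Cmd.Run.castStk
    (Cmd.Run.push (Γ := Gam A T R) (σ := Var A T) .rev (fun _ => w) v m.toStk) ?_⟩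
  funext k
  cases k
  case rev => rfl
  all_goals simp [Mem.toStk]

/-- The program `q` is a test: it computes a Boolean function of the memory. -/
def Tests (q : Prog A T R) (f : Mem A T R → Bool) : Prop :=
  ∀ m v, ∃ v', Cmd.Run q v m.toStk 1 v' m.toStk ∧ v'.1 = f m

/-- Conditional. -/
def ifT (q c₁ c₂ : Prog A T R) : Prog A T R := .seq q (.ite (fun v => v.1) c₁ c₂)

theorem does_ifT_true {q c₁ c₂ : Prog A T R} {f : Mem A T R → Bool} (hq : Tests q f)
    {m m' : Mem A T R} {t : ℕ} (hf : f m = true) (h : Does c₁ m t m') :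
    Does (ifT q c₁ c₂) m (t + 2) m' := by
  intro v
  obtain ⟨v', h1, h2⟩ := hq m v
  obtain ⟨v'', n, hn, hr⟩ := h v'
  exact ⟨v'', 1 + (n + 1), by omega, .seq h1 (.ite_true (h2.trans hf) hr)⟩

theorem does_ifT_false {q c₁ c₂ : Prog A T R} {f : Mem A T R → Bool} (hq : Tests q f)
    {m m' : Mem A T R} {t : ℕ} (hf : f m = false) (h : Does c₂ m t m') :
    Does (ifT q c₁ c₂) m (t + 2) m' := by
  intro v
  obtain ⟨v', h1, h2⟩ := hq m v
  obtain ⟨v'', n, hn, hr⟩ := h v'
  exact ⟨v'', 1 + (n + 1), by omega, .seq h1 (.ite_false (h2.trans hf) hr)⟩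

/-- While loop. -/
def whileT (q c : Prog A T R) : Prog A T R := .seq q (.loop (fun v => v.1) (.seq c q))

/-- The rule for while loops; `I i` is the memory when `i` rounds remain. -/
theorem does_whileT {q c : Prog A T R} {f : Mem A T R → Bool} (hq : Tests q f)
    (I : ℕ → Mem A T R) (n t : ℕ) (h0 : f (I 0) = false) (hs : ∀ i < n, f (I (i + 1)) = true)
    (hb : ∀ i < n, Does c (I (i + 1)) t (I i)) :
    Does (whileT q c) (I n) (n * (t + 2) + 2) (I 0) := by
  have key : ∀ k ≤ n, ∀ v : Var A T, v.1 = f (I k) → ∃ v' j, j ≤ k * (t + 2) + 1 ∧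
      Cmd.Run (.loop (fun v => v.1) (.seq c q)) v (I k).toStk j v' (I 0).toStk := by
    intro k
    induction k with
    | zero =>
      intro _ v hv
      exact ⟨v, 1, by omega, .loop_false (hv.trans h0)⟩
    | succ k ih =>
      intro hk v hv
      obtain ⟨v₁, n₁, hn₁, hr₁⟩ := hb k (by omega) v
      obtain ⟨v₂, h₂, h₃⟩ := hq (I k) v₁
      obtain ⟨v₃, n₃, hn₃, hr₃⟩ := ih (by omega) v₂ h₃
      refine ⟨v₃, n₁ + 1 + n₃ + 1, ?_, .loop_true (hv.trans (hs k (by omega))) (.seq hr₁ h₂) hr₃⟩
      rw [Nat.succ_mul]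
      omega
  intro v
  obtain ⟨v', h1, h2⟩ := hq (I n) v
  obtain ⟨v'', j, hj, hr⟩ := key n le_rfl v' h2
  exact ⟨v'', 1 + j, by omega, .seq h1 hr⟩

/-- The rule for while loops, with the initial and the final memory given separately. -/
theorem does_while {q c : Prog A T R} {f : Mem A T R → Bool} (hq : Tests q f)
    (I : ℕ → Mem A T R) (n t : ℕ) {m m' : Mem A T R} {t' : ℕ} (hm : m = I n) (hm' : m' = I 0)
    (h0 : f (I 0) = false) (hs : ∀ i < n, f (I (i + 1)) = true)
    (hb : ∀ i < n, Does c (I (i + 1)) t (I i)) (ht : n * (t + 2) + 2 ≤ t') :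
    Does (whileT q c) m t' m' := by
  subst hm hm'
  exact (does_whileT hq I n t h0 hs hb).mono ht

theorem Does.congr {c : Prog A T R} {m m' m'' : Mem A T R} {t : ℕ}
    (h : Does c m t m') (e : m' = m'') : Does c m t m'' := e ▸ h

theorem Does.fin {c : Prog A T R} {m m' m'' : Mem A T R} {t t' : ℕ}
    (h : Does c m t m') (ht : t ≤ t') (e : m' = m'') : Does c m t' m'' := e ▸ h.mono ht

/-- Test whether a counter is positive. -/
def tReg (r : R) : Prog A T R := .peek (.reg r) fun v o => (o.isSome, v.2)

theorem tests_tReg (r : R) : Tests (A := A) (T := T) (tReg r) fun m => decide (m.r r ≠ 0) := by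
  intro m v
  refine ⟨_, .peek _ _ _ _, ?_⟩
  simp only [Mem.toStk]
  cases hr : m.r r with
  | zero => simp
  | succ n => simp [List.replicate_succ]

/-- Test whether the input stack is nonempty. -/
def tInp : Prog A T R := .peek .inp fun v o => (o.isSome, v.2)

theorem tests_tInp : Tests (A := A) (T := T) (R := R) tInp fun m => !m.inp.isEmpty := by
  intro m v
  refine ⟨_, .peek _ _ _ _, ?_⟩
  simp only [Mem.toStk]
  cases m.inp <;> rfl

/-- Test whether `xs` is nonempty. -/
def tXs : Prog A T R := .peek .xs fun v o => (o.isSome, v.2)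

theorem tests_tXs : Tests (A := A) (T := T) (R := R) tXs fun m => !m.xs.isEmpty := by
  intro m v
  refine ⟨_, .peek _ _ _ _, ?_⟩
  simp only [Mem.toStk]
  cases m.xs <;> rfl

/-- Test whether `xt` is nonempty. -/
def tXt : Prog A T R := .peek .xt fun v o => (o.isSome, v.2)

theorem tests_tXt : Tests (A := A) (T := T) (R := R) tXt fun m => !m.xt.isEmpty := by
  intro m v
  refine ⟨_, .peek _ _ _ _, ?_⟩
  simp only [Mem.toStk]
  cases m.xt <;> rfl

/-- Test whether `rev` is nonempty. -/
def tRev : Prog A T R := .peek .rev fun v o => (o.isSome, v.2)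

theorem tests_tRev : Tests (A := A) (T := T) (R := R) tRev fun m => !m.rev.isEmpty := by
  intro m v
  refine ⟨_, .peek _ _ _ _, ?_⟩
  simp only [Mem.toStk]
  cases m.rev <;> rfl

open Classical in
/-- Test whether the top of `xs` is the symbol `s`. -/
noncomputable def tSym (s : Option A) : Prog A T R :=
  .peek .xs fun v o => (decide (o = some s), v.2)

open Classical in
theorem tests_tSym (s : Option A) :
    Tests (A := A) (T := T) (R := R) (tSym s) fun m => decide (m.xs.head? = some s) := by
  intro m v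
  exact ⟨_, .peek _ _ _ _, decide_eq_decide.2 Iff.rfl⟩

/-- Move the top of the input stack to `xt`. -/
def mvInp : Prog A T R :=
  .seq (.pop .inp fun v o => (v.1, o, v.2.2)) (.push .xt fun v => v.2.1)

theorem does_mvInp (m : Mem A T R) (a : A) (l : List A) (h : m.inp = a :: l) :
    Does mvInp m 2 { m with inp := l, xt := some a :: m.xt } := by
  intro v
  have h1 := Cmd.Run.pop (Γ := Gam A T R) (σ := Var A T) .inp (fun v o => (v.1, o, v.2.2)) v
    m.toStk
  have h2 := Cmd.Run.push (Γ := Gam A T R) (σ := Var A T) .xt (fun v => v.2.1)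
      (v.1, (Mem.toStk m .inp).head?, v.2.2)
      (Function.update m.toStk .inp (Mem.toStk m .inp).tail)
  refine ⟨_, 2, le_rfl, (Cmd.Run.seq h1 h2).castStk ?_⟩
  funext k
  cases k <;> simp [Mem.toStk, h] <;> rfl

/-- Move the top of `xs` to `xt`. -/
def mvXs : Prog A T R :=
  .seq (.pop .xs fun v o => (v.1, o.join, v.2.2)) (.push .xt fun v => v.2.1)

theorem does_mvXs (m : Mem A T R) (a : Option A) (l : List (Option A)) (h : m.xs = a :: l) :
    Does mvXs m 2 { m with xs := l, xt := a :: m.xt } := by
  intro v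
  have h1 := Cmd.Run.pop (Γ := Gam A T R) (σ := Var A T) .xs (fun v o => (v.1, o.join, v.2.2)) v
    m.toStk
  have h2 := Cmd.Run.push (Γ := Gam A T R) (σ := Var A T) .xt (fun v => v.2.1)
      (v.1, (Mem.toStk m .xs).head?.join, v.2.2)
      (Function.update m.toStk .xs (Mem.toStk m .xs).tail)
  refine ⟨_, 2, le_rfl, (Cmd.Run.seq h1 h2).castStk ?_⟩
  funext k
  cases k <;> simp [Mem.toStk, h] <;> rfl

/-- Move the top of `xt` to `xs`. -/
def mvXt : Prog A T R :=
  .seq (.pop .xt fun v o => (v.1, o.join, v.2.2)) (.push .xs fun v => v.2.1)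

theorem does_mvXt (m : Mem A T R) (a : Option A) (l : List (Option A)) (h : m.xt = a :: l) :
    Does mvXt m 2 { m with xt := l, xs := a :: m.xs } := by
  intro v
  have h1 := Cmd.Run.pop (Γ := Gam A T R) (σ := Var A T) .xt (fun v o => (v.1, o.join, v.2.2)) v
    m.toStk
  have h2 := Cmd.Run.push (Γ := Gam A T R) (σ := Var A T) .xs (fun v => v.2.1)
      (v.1, (Mem.toStk m .xt).head?.join, v.2.2)
      (Function.update m.toStk .xt (Mem.toStk m .xt).tail)
  refine ⟨_, 2, le_rfl, (Cmd.Run.seq h1 h2).castStk ?_⟩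
  funext k
  cases k <;> simp [Mem.toStk, h] <;> rfl

/-- Move the top of `rev` to `out`. -/
def mvRev [Inhabited T] : Prog A T R :=
  .seq (.pop .rev fun v o => (v.1, v.2.1, o)) (.push .out fun v => v.2.2.getD default)

theorem does_mvRev [Inhabited T] (m : Mem A T R) (a : T) (l : List T) (h : m.rev = a :: l) :
    Does mvRev m 2 { m with rev := l, out := a :: m.out } := by
  intro v
  have h1 := Cmd.Run.pop (Γ := Gam A T R) (σ := Var A T) .rev (fun v o => (v.1, v.2.1, o)) v
    m.toStk
  have h2 := Cmd.Run.push (Γ := Gam A T R) (σ := Var A T) .out (fun v => v.2.2.getD default)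
      (v.1, v.2.1, (Mem.toStk m .rev).head?)
      (Function.update m.toStk .rev (Mem.toStk m .rev).tail)
  refine ⟨_, 2, le_rfl, (Cmd.Run.seq h1 h2).castStk ?_⟩
  funext k
  cases k <;> simp [Mem.toStk, h] <;> rfl

end Pool.Agent.Lib.PolyTM
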